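import Pool.Agent.TH894.NE4

/-!
# Primes with prescribed pairs of traces of Frobenius: a law with square-root error for almost all pairs of elliptic curves of arbitrarily
thin polynomial families

Nothing is used besides Mathlib in the statement.
-/

set_option autoImplicit false

namespace Pool.Agent.Results.MP_fa740a_nt.FewDigitPairsOfCurves

open Finset

/-- The value of the polynomial `F` at the vector `m`. -/
noncomputable def val {d : ℕ} (F : MvPolynomial (Fin d) ℤ) (m : Fin d → ℕ) : ℤ := MvPolynomial.eval (fun i => (m i : ℤ)) F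

/-- The prime `p` is good for the curve `Y ^ 2 = X ^ 3 + A X + B`: it does not divide `2 (4 A ^ 3 + 27 B ^ 2)`. -/
def Good (p : ℕ) (A B : ℤ) : Prop := ¬ (p : ℤ) ∣ 2 * (4 * A ^ 3 + 27 * B ^ 2)

/-- The trace `a_p` of Frobenius of the curve `Y ^ 2 = X ^ 3 + A X + B`: the prime `p` minus the number of the affine points over `ℤ/p`. -/
noncomputable def trace (p : ℕ) (A B : ℤ) : ℤ :=
  (p : ℤ) - (Nat.card {P : ZMod p × ZMod p // P.2 ^ 2 = P.1 ^ 3 + (A : ZMod p) * P.1 + (B : ZMod p)} : ℕ)

/-- The prime `p` is good for the curves `E_j : Y ^ 2 = X ^ 3 + F_j (m) X + G_j (m)`, `j = 1, 2`, and the triple `(p, a_p (E_1), a_p (E_2))` belongs to `S`. -/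
def Has {d : ℕ} (F G : Fin 2 → MvPolynomial (Fin d) ℤ) (S : Set (ℕ × ℤ × ℤ)) (p : ℕ) (m : Fin d → ℕ) : Prop :=
  (∀ j, Good p (val (F j) m) (val (G j) m)) ∧
    (p, trace p (val (F 0) m) (val (G 0) m), trace p (val (F 1) m) (val (G 1) m)) ∈ S

open Classical in
/-- The number of the primes `p ≤ x` which are good for both curves with `(p, a_p (E_1), a_p (E_2)) ∈ S`. If `S` is the set of the triples
`(p, r_1, r_2)` with fixed `r_1`, `r_2`, this is `π_{E, r} (x)` (for the given models). -/
noncomputable def count {d : ℕ} (F G : Fin 2 → MvPolynomial (Fin d) ℤ) (S : Set (ℕ × ℤ × ℤ)) (m : Fin d → ℕ) (x : ℕ) : ℕ :=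
  ((range (x + 1)).filter (fun p => p.Prime ∧ Has F G S p m)).card

open Classical in
/-- The expected number: the sum over the primes `p ≤ x` of the proportion of the vectors `m` modulo `p` with the property. -/
noncomputable def expected {d : ℕ} (F G : Fin 2 → MvPolynomial (Fin d) ℤ) (S : Set (ℕ × ℤ × ℤ)) (x : ℕ) : ℝ :=
  ∑ p ∈ (range (x + 1)).filter Nat.Prime, (((Fintype.piFinset (fun _ : Fin d => range p)).filter (fun m => Has F G S p m)).card : ℝ) / (p : ℝ) ^ d

/-- The digit number `i` (counted from the right, beginning with `0`) of `n` in base `b`. -/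
def digit (b i n : ℕ) : ℕ := n / b ^ i % b

/-- The number which arises from the number `N` with at most `K` digits in base `b`, if for every `i ∈ S`
the digit number `i` is replaced by `f i`. -/
def change (b K N : ℕ) (f : ℕ → ℕ) (S : Finset ℕ) : ℕ :=
  ∑ i ∈ range K, (if i ∈ S then f i else digit b i N) * b ^ i

open Classical in
/-- The number of the choices of `s l` of `K l` positions for all `l < d` for which the vector of the numbers obtained by
changing the digits of the `N l` at the chosen positions (according to `f l`) does not have the property `E`. -/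
noncomputable def exceptions {d : ℕ} (b : ℕ) (K s N : Fin d → ℕ) (f : Fin d → ℕ → ℕ) (E : (Fin d → ℕ) → Prop) : ℕ :=
  ((Fintype.piFinset (fun l => powersetCard (s l) (range (K l)))).filter
    (fun S => ¬ E (fun l => change b (K l) (N l) (f l) (S l)))).card

private lemma val_cast {d : ℕ} (p : ℕ) (F : MvPolynomial (Fin d) ℤ) (m : Fin d → ℕ) :
    ((val F m : ℤ) : ZMod p) = ((val F (fun i => m i % p) : ℤ) : ZMod p) := by
  have h : ∀ n : Fin d → ℕ, ((val F n : ℤ) : ZMod p) = MvPolynomial.eval (fun i => (n i : ZMod p)) (MvPolynomial.map (Int.castRingHom (ZMod p)) F) := by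
    intro n
    unfold val
    have h1 := MvPolynomial.map_eval (Int.castRingHom (ZMod p)) (fun i => (n i : ℤ)) F
    have h2 : (⇑(Int.castRingHom (ZMod p)) ∘ fun i => (n i : ℤ)) = fun i => (n i : ZMod p) := by
      funext i
      simp
    rw [h2] at h1
    exact h1
  rw [h, h]
  congr 2
  funext i
  rw [ZMod.natCast_mod]

private lemma good_cast (p : ℕ) (A B A' B' : ℤ) (hA : (A : ZMod p) = A') (hB : (B : ZMod p) = B') : Good p A B ↔ Good p A' B' := by
  unfold Good
  rw [← ZMod.intCast_zmod_eq_zero_iff_dvd, ← ZMod.intCast_zmod_eq_zero_iff_dvd]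
  push_cast
  rw [hA, hB]

private lemma trace_cast (p : ℕ) (A B A' B' : ℤ) (hA : (A : ZMod p) = A') (hB : (B : ZMod p) = B') : trace p A B = trace p A' B' := by
  unfold trace
  rw [hA, hB]

private lemma has_mod {d : ℕ} (F G : Fin 2 → MvPolynomial (Fin d) ℤ) (S : Set (ℕ × ℤ × ℤ)) (p : ℕ) (m : Fin d → ℕ) :
    Has F G S p m ↔ Has F G S p (fun i => m i % p) := by
  unfold Has
  have h1 : (∀ j, Good p (val (F j) m) (val (G j) m)) ↔ ∀ j, Good p (val (F j) (fun i => m i % p)) (val (G j) (fun i => m i % p)) :=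
    forall_congr' fun j => good_cast p _ _ _ _ (val_cast p _ m) (val_cast p _ m)
  rw [h1, trace_cast p (val (F 0) m) (val (G 0) m) _ _ (val_cast p _ m) (val_cast p _ m),
    trace_cast p (val (F 1) m) (val (G 1) m) _ _ (val_cast p _ m) (val_cast p _ m)]

/-- **Prescribed pairs of traces of Frobenius in thin families.** Let a base `b ≥ 2`, integers `d ≥ 1`, `A ≥ 0` and `δ > 0` be given. There are
`c > 0` and `y₀` such that for all integers `r_l`, `K_l` (`l = 1, ..., d`), `y` with `2 r_l ≤ K_l` and `y ≥ y₀` the following holds.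

Let `0 ≤ N_l < b ^ K_l` be arbitrary integers, prescribe for every position `j` a digit `g l j` different from the digit of
`N_l` in base `b`, and let `Λ x` be for every `x` any set of at most `x ^ A` systems `(F_1, G_1, F_2, G_2; S)` of polynomials in `d` variables with integer coefficients and a set `S` of
triples `(p, r_1, r_2)`. If one chooses `r_l` of the `K_l` positions and replaces the digits of `N_l` at these positions, then for all but at most a proportion
`1 / y ^ A` of the choices the vector `m` obtained has the following property: for all integers `x` with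
`y ≤ x ≤ exp (c r_l)` for all `l` and all systems from `Λ x`, the number of the primes `p ≤ x` which are good for the two curves `E_j : Y ^ 2 = X ^ 3 + F_j (m) X + G_j (m)` and for which
`(p, a_p (E_1), a_p (E_2)) ∈ S`, differs from its expected value `V` by at most `(max 1 V) ^ (1 / 2) x ^ δ`. -/
theorem result (b d : ℕ) (hb : 2 ≤ b) (hd : 1 ≤ d) (δ : ℝ) (hδ : 0 < δ) (A : ℕ) :
    ∃ c : ℝ, 0 < c ∧ ∃ y₀ : ℕ,
    ∀ (K r : Fin d → ℕ) (y : ℕ), (∀ l, 2 * r l ≤ K l) → y₀ ≤ y →
    ∀ N : Fin d → ℕ, (∀ l, N l < b ^ K l) → ∀ g : Fin d → ℕ → ℕ, (∀ l j, g l j < b ∧ g l j ≠ digit b j (N l)) →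
    ∀ (κ : Type) (F G : κ → Fin 2 → MvPolynomial (Fin d) ℤ) (S : κ → Set (ℕ × ℤ × ℤ)) (Λ : ℕ → Finset κ), (∀ x, (Λ x).card ≤ x ^ A) →
      (exceptions b K r N g (fun m => ∀ x : ℕ, y ≤ x → (∀ l, (x : ℝ) ≤ Real.exp (c * r l)) → ∀ i ∈ Λ x,
        |(count (F i) (G i) (S i) m x : ℝ) - expected (F i) (G i) (S i) x| ≤
          Real.sqrt (max 1 (expected (F i) (G i) (S i) x)) * (x : ℝ) ^ δ) : ℝ) ≤
        1 / (y : ℝ) ^ A * ∏ l, ((K l).choose (r l) : ℝ) := by
  classical
  obtain ⟨c, hc, x₀, h⟩ := Pool.Agent.TH894.NE.law2 b d hb hd δ A A hδ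
  refine ⟨c, hc, x₀ + 3, fun K r y hrK hy N hN g hg κ F G S Λ hΛ => ?_⟩
  have hy0 : (0 : ℝ) < y := by exact_mod_cast (by omega : 0 < y)
  have h1 : 1 / (y : ℝ) ^ A = (y : ℝ) ^ (-(A : ℝ)) := by
    rw [Real.rpow_neg hy0.le, Real.rpow_natCast, one_div]
  rw [h1]
  unfold exceptions
  refine h r K y hrK (by omega) N hN g hg κ Λ ?_ ℕ (fun x _ => (range (x + 1)).filter Nat.Prime) (fun _ p => p) ?_ ?_
    (fun i p m => Has (F i) (G i) (S i) p m) ?_ _ (filter_subset _ _) ?_
  · intro x _
    rw [Real.rpow_natCast]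
    exact_mod_cast hΛ x
  · intro x l _ p hp
    rw [mem_filter, mem_range] at hp
    exact ⟨hp.2.one_lt.le, by omega⟩
  · intro x l _ p hp p' hp' hne
    rw [mem_filter] at hp hp'
    exact (Nat.coprime_primes hp.2 hp'.2).2 hne
  · intro x i _ p _ m
    exact has_mod (F i) (G i) (S i) p m
  · intro T hT
    rw [mem_filter] at hT
    obtain ⟨_, hT2⟩ := hT
    push Not at hT2
    obtain ⟨x, hyx, hxr, i, hi, hlt⟩ := hT2
    have hx0 : (0 : ℝ) < x := by exact_mod_cast (by omega : 0 < x)
    have hexp : expected (F i) (G i) (S i) x = ∑ p ∈ (range (x + 1)).filter Nat.Prime,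
        Pool.Agent.TH894.NE.Pr d p (fun m => Has (F i) (G i) (S i) p m) := by
      unfold expected Pool.Agent.TH894.NE.Pr Pool.Agent.TH894.NE.box
      rfl
    have hcount : ∀ m : Fin d → ℕ, (count (F i) (G i) (S i) m x : ℝ) =
        ((((range (x + 1)).filter Nat.Prime).filter (fun p => Has (F i) (G i) (S i) p m)).card : ℝ) := by
      intro m
      unfold count
      rw [filter_filter]
    refine ⟨x, hyx, fun l => (Real.log_le_iff_le_exp hx0).2 (hxr l), i, hi, ?_⟩
    rw [hcount, hexp] at hlt
    exact hlt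

end Pool.Agent.Results.MP_fa740a_nt.FewDigitPairsOfCurves
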