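import Pool.Agent.Results.MP_fa740a_nt.FewDigitPairsOfCurves
import Pool.Agent.X174.DigitWin

/-!
# Primes with prescribed pairs of traces of Frobenius: a law with square-root error for ALL pairs of elliptic curves in cubes

**Theorem.** Let `d ≥ 1`, `A ≥ 0`, `δ > 0`. There is `c > 0` such that the following holds for every family which assigns to
every `x` at most `x ^ A` systems `(F_1, G_1, F_2, G_2; S)` of polynomials in `d` variables with integer coefficients and a set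
`S` of triples `(p, r_1, r_2)`, every `ξ > 0` with `ξ A ≤ d`, every sequence `v ≥ 1` of exponent of convergence at most `τ` (for
`v_i = (i + 1) ^ b` this is `1 / b`, for `v_i = b ^ i` it is `0`) and every `ρ < 1`: there is a set `E ⊂ ℝ ^ d` of Hausdorff
dimension at most `(d - ξ A + τ) / (1 - ρ)` such that for each `x ∈ ℝ ^ d` outside `E` there is `i₀` such that for ALL
`m ∈ ℕ ^ d` with `|m_l - x_l v_i| ≤ v_i ^ ρ` for some `i ≥ i₀`, all integers `X` with `v_i ^ ξ ≤ X ≤ v_i ^ c` and all systems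
belonging to `X` the number of the primes `p ≤ X` which are good for the two curves `E_j : Y ^ 2 = X ^ 3 + F_j (m) X + G_j (m)` and
for which `(p, a_p (E_1), a_p (E_2)) ∈ S` differs from its expected value `V` by at most `(max 1 V) ^ (1 / 2) X ^ δ`.

The numbers of the exceptional `m` come from the result `FewDigitPairsOfCurves` on the digits of `m`.
-/

set_option autoImplicit false

open Finset

namespace Pool.Agent.Results.MP_fa740a_nt.PairsInCubes

open FewDigitPairsOfCurves (count expected exceptions change)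

/-- the exponent of convergence of the sequence `v` is at most `τ` -/
def ExpLe (v : ℕ → ℝ) (τ : ℝ) : Prop := ∀ t : ℝ, τ < t → Summable (fun n : ℕ => (v n) ^ (-t))

lemma exc_spec {d : ℕ} (b : ℕ) (K s N : Fin d → ℕ) (f : Fin d → ℕ → ℕ) (E : (Fin d → ℕ) → Prop) :
    ∃ W : Finset (Fin d → Finset ℕ), W.card = exceptions b K s N f E ∧
      ∀ S ∈ Fintype.piFinset (fun l => powersetCard (s l) (range (K l))), S ∉ W →
        E (fun l => change b (K l) (N l) (f l) (S l)) := by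
  classical
  refine ⟨_, rfl, fun S hS hSW => ?_⟩
  by_contra h
  exact hSW (mem_filter.2 ⟨hS, h⟩)

/-- **Prescribed pairs of traces, all parameters in cubes.** For `d ≥ 1`, `A ≥ 0` and `δ > 0` there is `c > 0` such that for
every family which assigns to every `x` at most `x ^ A` systems `(F_1, G_1, F_2, G_2; S)`, every `ξ > 0` with `ξ A ≤ d`, every
sequence `v ≥ 1` of exponent of convergence at most `τ ≥ 0` and every `ρ < 1` there is a set `E ⊂ ℝ ^ d` of Hausdorff dimension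
at most `(d - ξ A + τ) / (1 - ρ)` such that for each `x` outside `E` there is `i₀` such that for all `i ≥ i₀`, all `m ∈ ℕ ^ d`
with `|m_l - x_l v_i| ≤ v_i ^ ρ`, all integers `X` with `v_i ^ ξ ≤ X ≤ v_i ^ c` and all systems of `X` the number of the good
primes `p ≤ X` with `(p, a_p (E_1), a_p (E_2)) ∈ S` differs from its expected value `V` by at most
`(max 1 V) ^ (1 / 2) X ^ δ`. The sequences `v_i = (i + 1) ^ b` and `v_i = b ^ i` have exponent of convergence at most `1 / b`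
and `0`. -/
theorem result :
    (∀ (d : ℕ), 1 ≤ d → ∀ δ : ℝ, 0 < δ → ∀ A : ℕ, ∃ c : ℝ, 0 < c ∧
      ∀ (κ : Type) (F G : κ → Fin 2 → MvPolynomial (Fin d) ℤ) (S : κ → Set (ℕ × ℤ × ℤ)) (Λ : ℕ → Finset κ),
      (∀ x, (Λ x).card ≤ x ^ A) →
      ∀ ξ : ℝ, 0 < ξ → ξ * A ≤ d → ∀ (v : ℕ → ℝ) (τ ρ : ℝ), (∀ i, 1 ≤ v i) → 0 ≤ τ → ExpLe v τ → ρ < 1 →
      ∃ E : Set (Fin d → ℝ), dimH E ≤ ENNReal.ofReal ((d - ξ * A + τ) / (1 - ρ)) ∧ ∀ x : Fin d → ℝ, x ∉ E →
        ∃ i₀ : ℕ, ∀ i : ℕ, i₀ ≤ i → ∀ m : Fin d → ℕ, (∀ l, |(m l : ℝ) - x l * v i| ≤ (v i) ^ ρ) →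
          ∀ X : ℕ, (v i) ^ ξ ≤ X → (X : ℝ) ≤ (v i) ^ c → ∀ j ∈ Λ X,
            |(count (F j) (G j) (S j) m X : ℝ) - expected (F j) (G j) (S j) X| ≤
              Real.sqrt (max 1 (expected (F j) (G j) (S j) X)) * (X : ℝ) ^ δ) ∧
    (∀ b : ℝ, 0 < b → ExpLe (fun n : ℕ => ((n : ℝ) + 1) ^ b) (1 / b)) ∧
    (∀ b : ℝ, 1 < b → ExpLe (fun n : ℕ => b ^ n) 0) := by
  classical
  refine ⟨fun d hd δ hδ A => ?_, fun κ hκ => Pool.Agent.Y854.GM.expLe_pow κ hκ,
    fun b hb => Pool.Agent.Y854.GM.expLe_geom b hb⟩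
  obtain ⟨c, hc, y₀, h⟩ := FewDigitPairsOfCurves.result 2 d le_rfl hd δ hδ A
  refine ⟨c / 4, by positivity, ?_⟩
  intro κ F G S Λ hΛ ξ hξ hξA v τ ρ hv hτ hE hρ
  obtain ⟨E, h1, h2⟩ := Pool.Agent.X174.digitWin (d := d) (c := c) hc y₀ A
    (fun X m => ∀ j ∈ Λ X, |(count (F j) (G j) (S j) m X : ℝ) - expected (F j) (G j) (S j) X| ≤
              Real.sqrt (max 1 (expected (F j) (G j) (S j) X)) * (X : ℝ) ^ δ) (by
      intro K r y hrK hy N hN f hf
      have h3 := h K r y hrK hy N hN f hf κ F G S Λ hΛ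
      obtain ⟨W, hW1, hW2⟩ := exc_spec 2 K r N f (fun m => ∀ x : ℕ, y ≤ x → (∀ l, (x : ℝ) ≤ Real.exp (c * r l)) → ∀ i ∈ Λ x,
        |(count (F i) (G i) (S i) m x : ℝ) - expected (F i) (G i) (S i) x| ≤
          Real.sqrt (max 1 (expected (F i) (G i) (S i) x)) * (x : ℝ) ^ δ)
      rw [← hW1] at h3
      exact ⟨W, h3, fun S hS hSW x hyx hxr => hW2 S hS hSW x hyx hxr⟩)
    hξ hξA hv hτ hE hρ
  refine ⟨E, h1, fun x hx => ?_⟩
  obtain ⟨i₀, hi₀⟩ := h2 x hx
  exact ⟨i₀, fun i hi m hm X hX1 hX2 => hi₀ i hi m hm X hX1 hX2⟩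

end Pool.Agent.Results.MP_fa740a_nt.PairsInCubes
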